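import Pool.Agent.H858.CK.Main

/-!
# The conjecture of Kunneth type holds up to operators of small rank on `Y × X ^ n`

Let `X`, `Y` be smooth projective varieties, `b_1(X) > 0`, `Z = Y × X ^ n`, `N = dim Z`, and let
`s ≥ 1` be such that the Kunneth projectors of `X` in the degrees `≤ s` and those of `Y` in the
degrees `< s` are algebraic. For `s = 1` this is known for **all** `X`, `Y` (Kleiman: `π^0` and
`π^1`).

**Theorem.** There are cycles `P_0, P_1, P_2, …` of codimension `N` on `Z × Z`, which do not depend on
the Weil cohomology theory, such that `P_i` acts on `H(Z)` as an idempotent operator with image in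
`H^i(Z)`, zero on `H^j(Z)` for `j ≠ i`, and

`rank (π^i_Z - P_i) ≤ b' (4 b i ^ 2 / n) ^ s b_i(Z)`,

where `b`, `b'` are the sums of the Betti numbers of `X` and `Y`; the transposed cycle has the same
properties in the degree `2 N - i`.

So for fixed `i` and `n → ∞` (even for `i = o(√n)`) all but a share `O((i ^ 2 / n) ^ s)` of `H^i(Z)` is
split off by an algebraic projector, for all Weil cohomology theories at once, although nothing is
known about the conjecture of Kunneth type for `X` in degrees `> s` and for `Y` in degrees `≥ s`.

**Proof.** `P_i` is the sum of the external products of the known projectors of total degree `i`.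
It acts on a word of homogeneous classes as the identity if all letters have small degree and the
total degree is `i`, and as zero otherwise. A word of degree `i` with a letter of `H^d(X)`, `d > s`,
or of `H^d(Y)`, `d ≥ s`, has at most `i - s` letters of positive degree in `H(X)`; the number of these
words is at most `b' ∑_(L ≤ i - s) C(n, L) (b i) ^ (i - L) b_1(X) ^ i`, which is at most
`b' (4 b i ^ 2 / n) ^ s C(n, i) b_1(X) ^ i ≤ b' (4 b i ^ 2 / n) ^ s b_i(Z)`.
-/

open CategoryTheory AlgebraicGeometry

universe u v

namespace Pool.Agent.Results.MP_a60482_ag.AlmostKunneth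

open Pool.Agent.H914 Pool.Agent.Y163 VarClass Obj WeilCohomology Pool.Agent.H858.CK

/-- **Almost all of the cohomology is split off by algebraic Kunneth projectors.** -/
theorem result {k : Type u} [Field k] {𝒱 : VarClass k} {ops : CycleOps 𝒱} {X Y : 𝒱.Obj} {s : ℕ}
    (hs : 0 < s)
    -- the known projectors of `X` (degrees `≤ s`) and `Y` (degrees `< s`)
    (πX : ℕ → (X.prod X).Cycles) (hX : ∀ d, d ≤ s → (X.prod X).IsCyc X.dim (πX d))
    (πY : ℕ → (Y.prod Y).Cycles) (hY : ∀ f, f < s → (Y.prod Y).IsCyc Y.dim (πY f)) (n : ℕ) :
    ∃ P : ℕ → ((ZZ Y X n).prod (ZZ Y X n)).Cycles,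
      (∀ i, ((ZZ Y X n).prod (ZZ Y X n)).IsCyc (ZZ Y X n).dim (P i)) ∧
      ∀ W : WeilCohomology.{u, v} ops, Known W s πX πY →
        Pool.Agent.H858.CK.AlmostKunneth W (ZZ Y X n) P
          (shareK s (Pool.Agent.H858.AB.bettiSum W X) (Pool.Agent.H858.AB.bettiSum W Y) (n + 1)) :=
  Pool.Agent.H858.CK.main hs hX hY n

end Pool.Agent.Results.MP_a60482_ag.AlmostKunneth
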