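import Pool.Agent.H843.Le8

/-!
# The numerical conjecture A, signs of ranks, and a theory with the conjectures A, B, C, D

For a class of varieties with one Weil cohomology theory which satisfies the sign conjecture (for
instance the `ℓ`-adic or the crystalline theory over a finite field), the existence of a Weil
cohomology theory for which all Kunneth projectors are algebraic, homological and numerical
equivalence coincide, hard Lefschetz holds and the operators `Λ` are algebraic is equivalent to two
statements about intersection numbers only: the conjecture A for numerical equivalence, and the
sign of the intersection number with the diagonal of the projectors onto classes of highest weight.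
-/

open CategoryTheory AlgebraicGeometry

universe u v

namespace Pool.Agent.Results.MP_a60482_ag.NumericalLefschetz

open Pool.Agent.H914 Pool.Agent.H914.VarClass Pool.Agent.H914.VarClass.Obj
  Pool.Agent.H914.WeilCohomology Pool.Agent.H843

variable {k : Type u} [Field k] {𝒱 : VarClass k} {ops : CycleOps 𝒱}

/-- Let `Pol X` be sets of divisors on the varieties `X` of a class of varieties which is closed
under products and contains a point, such that the `Pol X` behave like the sets of all ample
divisors. The following are equivalent:
1. some Weil cohomology theory satisfies the sign conjecture, and for all `X` and all `D` in
   `Pol X` the numerical conjecture A and the condition on the signs of ranks hold;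
2. some Weil cohomology theory satisfies the conjecture D for all `X` and hard Lefschetz for all
   `X` and all `D` in `Pol X`;
3. some Weil cohomology theory satisfies the conjectures C and D for all `X`, and hard Lefschetz
   and the conjecture B for all `X` and all `D` in `Pol X`. -/
theorem result {Pol : ∀ X : 𝒱.Obj, Set X.Cycles} (hPol : IsPolSystem ops Pol)
    (hP : ∃ P : 𝒱.Obj, P.dim = 0) :
    [(∃ W : WeilCohomology.{u, max (u + 1) v} ops, SignAll W) ∧
        ∀ X, ∀ D ∈ Pol X, NumLefschetz ops X D ∧ NumRank ops X D,
      ∃ W : WeilCohomology.{u, max (u + 1) v} ops, HomEqNumAll W ∧ HardLefschetzFor W Pol,
      ∃ W : WeilCohomology.{u, max (u + 1) v} ops, AllLefschetz W Pol].TFAE :=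
  Le.main hPol hP

end Pool.Agent.Results.MP_a60482_ag.NumericalLefschetz
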