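import Pool.Agent.H367.OT.GFam
import Pool.Graph.R_pool_sql_team_seeded_2aa45f1a.Results.MP_4ca46c_ag.FinitelyManyCubics

/-!
# The conjecture C for one variety and one sequence of cubics over the integers

A relation `r` of size `m` is one of the equations `x_i x_j = x_l`, `x_i + x_j = x_l`, `x_i = 1` with
`i, j, l < m`; the relations are numbered, the number of `r` is `ν(r)` (`relNum`), and `R_m` is the
number of all relations (`numRel m`). Let `G_m` be the following polynomial with integral coefficients
(`univG ℤ m`). There are variables `x_i` and `z_ij` for `i, j < m`, a variable `c_r` for every relation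
`r`, and variables `y_{r,l}` for all relations `r` and `l < (m + 1)^2 2 ^ ν(r)`. The equations (`eqnG`)
are

  `z_ij - x_i x_j`,  `c_r ^ 2 - c_r`,  `c_r ρ_r`,  `(1 - c_r) y_{r,l}`,

where `ρ_r` is the linear polynomial `z_ij - x_l`, `x_i + x_j - x_l` or `x_i - 1` of the relation.
`G_m` is the sum of the equations multiplied by further variables `t_e`, one for each equation. It has
degree three. Let `C_m` be the affine cubic hypersurface `G_m = 1` (`cubG R m` over the ring `R`); it is
smooth over the integers.

Let `k` be an algebraic closure of a prime field `F` (`ℚ` or `𝔽_p`), and `H` a Weil cohomology theory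
on the smooth projective schemes over `k`, with coefficients in a field `K` of characteristic zero.
Let `Z` be **one** smooth projective variety over `k`, of dimension `d`. It is a union of connected
components of `S_k` for a smooth projective scheme `S` over `F`. The conjecture `C(Z)` says that the
Künneth components `π_i` of the diagonal of `Z × Z` are algebraic.

For a smooth projective scheme `Y` over `F` let `A^n(Y)` be the `ℚ`-space of the algebraic classes of
codimension `n` on `Z × Y_k`, and `B^n(Y)` the space of the sums of classes `α ∘ π_i`, `α` in
`A^n(Y)`: these are the sums of the Künneth components, with respect to `Z`, of algebraic classes. (If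
`K ≠ ℚ`, algebraic classes are `K`-combinations of classes of cycles, `A^n(Y)` and `B^n(Y)` are
`K`-spaces, regarded as `ℚ`-spaces.) Both are additive functors of the Chow motive of `Y`, and `A^n ⊆
B^n`; they are zero for `n < 0` and `n > dim Y + d`, and they are equal if and only if the Künneth
components with respect to `Z` of the algebraic classes of codimension `n` on `Z × Y_k` are algebraic
(`Stable`).

For a separated scheme `X` of finite type over `F` let `W(X)` be the weight complex (Gillet, Soulé,
Bondarko; a complex of Chow motives over `F` with rational coefficients, for the cohomology with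
compact supports; `W(X) = h(X)` for smooth projective `X`), and put `A^{n,i}(X) = H^i(A^n(W(X)))` and
`B^{n,i}(X) = H^i(B^n(W(X)))`. `At C n X` says that the maps `A^{n,i}(X) → B^{n,i}(X)` are
isomorphisms for this `n` and all `i`.

**Theorem.** Let `E_m` be the number of the equations, and for `N ∈ ℕ` let
`idx m q N = q + (m + 1)^2 N + E_m - 1`.

(1) For every `S` and `d` there is an `m₀` such that for all `m ≥ m₀`, all Weil cohomology theories
and all `Z` as above, the following statements are equivalent: the conjecture `C(Z)`; the maps `A^{idx
m d N, i}(C_m) → B^{idx m d N, i}(C_m)` are isomorphisms for all `i` and `N < 2 ^ R_m`; the maps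
`A^{n, i}(X) → B^{n, i}(X)` are isomorphisms for all `n`, `i` and all separated schemes `X` of finite
type over `F`.

(2) The hypersurfaces decide the statements (`Decides d`): for every affine scheme `Spec B` of finite
type over `F` and all large `m` there is an `N` such that for `-d ≤ q ≤ m` the statement with the
index `q` for `Spec B` is equivalent to the one with the index `idx m q N` for `C_m`; and for every
separated scheme `X` of finite type and all large `m` the statements with the indices `idx m q N` for
`C_m` imply the statement with the index `q` for `X`.

(3) For `q ≤ 1` (divisors) the maps with the indices `idx m q N` are isomorphisms for `C_m`, `m` large.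

(4) `G_m` has integral coefficients and degree at most three, and `C_m` is smooth over all rings.

The definitions of `OneData`, `IsOne`, `ConjC`, `Stable`, `At` are those of the library
(`MP_4ca46c_ag.FinitelyManyCubics`, where `C(Z)` is equivalent to a statement on finitely many cubics
`T(x, y, z) = 1`). The hypotheses are standard: localisation sequences, affine bundles and products
with `𝔾_m` (`IsWeightPair`); the weight complex of a scheme of dimension at most `d` consists of
direct factors of motives of smooth projective varieties of dimension at most `d` (`GenAt`, `PBound`).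

Idea of the proof. The projection of `C_m` to the affine space with the coordinates `x, z, c, y` is an
affine bundle over the complement of the zero set `W_m` of the equations. The scheme `W_m` is the
disjoint union, over all sets `s` of relations (`c_r = 1` for `r ∈ s` and `c_r = 0` for the others), of
the products `X_s × 𝔸 ^ ((m + 1)^2 N(s))`, where `X_s` is the affine scheme defined by the relations in
`s` and `N(s) = ∑_{r ∈ s} 2 ^ ν(r)`. The numbers `N(s) < 2 ^ R_m` are different, and the dimension of `X_s`
is at most `m`. The invariants with the indices `q < -c` and `q > dim + c` are zero, and `m + 2 c` is less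
than `(m + 1)^2`. So the invariant of `W_m` with the index `q + (m + 1)^2 N(s)`, `-c ≤ q ≤ m`, is the
invariant of `X_s` with the index `q`; the other components do not contribute. Every affine scheme of
finite type over a prime field is an `X_s`, for all large `m`.

The universal system of relations is the one of helper854 (`Pool.Agent.H854.SQ`).
-/

set_option autoImplicit false

open CategoryTheory CategoryTheory.Limits AlgebraicGeometry Pool.Agent.Y116.UV Pool.Agent.Z125.UN
  Pool.Agent.Q193.LT Pool.Agent.Q49.WU Pool.Agent.H854.SQ Pool.Agent.H367.OT
open Pool.Agent.H367.OS (isPrimeField_rat)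
open Pool.Agent.Results.MP_4ca46c_ag.FinitelyManyCubics (OneData IsOne ConjC Stable At)

universe w



namespace Pool.Agent.Results.MP_a60482_ag.OneSequenceOverTheIntegers

/-- **The conjecture C for one variety and one sequence of cubic hypersurfaces over the integers.** See the
explanations above. -/
theorem result {F : Type} [Field F] (hF : IsPrimeField F) {S : Sch F} (hS : SmoothProj S) (d : ℕ) :
    (∃ m₀ : ℕ, ∀ m, m₀ ≤ m → ∀ (D : OneData.{w} F S) (C : PairData.{w} F (ℤ × ℤ) ℚ),
      IsOne D d → IsWeightPair C → GenAt C Prod.fst → PBound C Prod.fst d →
      (∀ Y, SmoothProj Y → ∀ n, (At C n Y ↔ Stable D n Y)) → List.TFAE [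
        ConjC D d,
        ∀ N : ℕ, N < 2 ^ numRel m → At C (idx m d N) (cubG F m),
        ∀ X : Sch F, FT True X → ∀ n, At C n X]) ∧
    (∀ C : PairData.{w} F (ℤ × ℤ) ℚ, IsWeightPair C → GenAt C Prod.fst → PBound C Prod.fst d →
      Decides d (At C) ∧
      ((∀ n : ℤ, n ≤ 1 → ∀ Y : Sch F, SmoothProj Y → At C n Y) → ∀ m, 1 ≤ m → 2 * d ≤ m →
        ∀ q : ℤ, -(d : ℤ) ≤ q → q ≤ 1 → ∀ N : ℕ, N < 2 ^ numRel m →
          At C (idx m q N) (cubG F m))) ∧
    ∀ m : ℕ, (univG ℤ m).totalDegree ≤ 3 ∧
      ∀ (R : Type) [CommRing R], MvPolynomial.map (Int.castRingHom R) (univG ℤ m) = univG R m ∧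
        Smooth (cubG R m).hom := by
  refine ⟨?_, fun C hC hw hb => ⟨decides_pair hF hw hC graded_weight hb, ?_⟩, cubG_facts⟩
  · obtain ⟨m₀, hm⟩ := single_index hF S hS.ft
    refine ⟨max m₀ (max 1 (2 * d)), fun m hm1 D C hD hC hw hb bij => ?_⟩
    have hm2 : 1 ≤ m := ((le_max_left _ _).trans (le_max_right _ _)).trans hm1
    have hm3 : 2 * d ≤ m := ((le_max_right _ _).trans (le_max_right _ _)).trans hm1
    have hP : Bounded d (At C) := bounded_pair hC graded_weight hb
    tfae_have 1 → 3 := fun h X hX n => hw n (fun Y hY => (bij Y hY n).mpr fun i α hα => by
      have h1 := hD.comp_mem Y hY n d α hα _ (h i)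
      rwa [add_sub_cancel_right] at h1) X hX
    tfae_have 3 → 2 := fun h N hN =>
      hP.of_all hm3 hm2 (by linarith [Int.natCast_nonneg d]) (by omega) (fun X hX => h X hX d) hN
    tfae_have 2 → 1 := fun h i => by
      have h1 : At C d S := hm m ((le_max_left _ _).trans hm1) d (At C) hP hm3 d
        (by linarith [Int.natCast_nonneg d]) (by omega) h
      have h2 := (bij S hS d).mp h1 i D.diag hD.diag_mem
      rwa [hD.square] at h2
    tfae_finish
  · intro known m hm hdm q hq0 hq1 N hN
    have h1 : (1 : ℤ) ≤ m := by exact_mod_cast hm
    exact (bounded_pair hC graded_weight hb).of_all hdm hm hq0 (hq1.trans h1)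
      (fun X hX => hw q (known q hq1) X hX) hN

end Pool.Agent.Results.MP_a60482_ag.OneSequenceOverTheIntegers
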